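import Pool.Agent.H84.SM.Targets

/-!
# MP_70ba79_ag, board `smc_modules`, module CMP: the values of a section in different charts
-/

set_option autoImplicit false

namespace Pool.Agent.H26.SM

open MvPolynomial SC Pool.Agent.H27.LV Pool.Agent.H84.SM

/-- scaling of the variables `y` -/
theorem aeval_scale {k : Type} [Field k] {L : Type} [CommRing L] [Algebra k L] (c : A2 k) (m : ℕ)
    (h : IsWeightedHomogeneous wy c m) (a b : Fin 3 → L) (T : L) :
    aeval (Sum.elim a (fun i => T * b i)) c = T ^ m * aeval (Sum.elim a b) c := by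
  rw [MvPolynomial.aeval_def, MvPolynomial.aeval_def, MvPolynomial.eval₂_eq',
    MvPolynomial.eval₂_eq', Finset.mul_sum]
  refine Finset.sum_congr rfl fun e he => ?_
  have hw : Finsupp.weight wy e = m := h (MvPolynomial.mem_support_iff.1 he)
  have hw2 : ∑ i : Fin 3, e (Sum.inr i) = m := by
    rw [← hw, Finsupp.weight_apply, Finsupp.sum_fintype _ _ (by simp), Fintype.sum_sum_type]
    simp [wy]
  rw [Fintype.prod_sum_type, Fintype.prod_sum_type]
  simp only [Sum.elim_inl, Sum.elim_inr, mul_pow, Finset.prod_mul_distrib]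
  rw [Finset.prod_pow_eq_pow_sum, hw2]
  ring

/-- scaling for weighted homogeneous elements of `R2` -/
theorem scale_R2 {k : Type} [Field k] {P : Type} [CommRing P] (Φ Ψ : R2 k →+* P) (T : P)
    (hX : Φ Polynomial.X = T ^ 3 * Ψ Polynomial.X)
    (hC : ∀ (c : A2 k) (m : ℕ), IsWeightedHomogeneous wy c m →
      Φ (Polynomial.C c) = T ^ m * Ψ (Polynomial.C c))
    (e n : ℕ) (N : R2 k) (hN : BHN e n N) : Φ N = T ^ n * Ψ N := by
  rw [N.as_sum_range_C_mul_X_pow, map_sum, map_sum, Finset.mul_sum]
  refine Finset.sum_congr rfl fun j _ => ?_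
  rw [map_mul, map_mul, map_pow, map_pow, hX]
  by_cases hj : 3 * j ≤ n
  · rw [hC _ _ ((hN j).1 hj).2, mul_pow, ← pow_mul]
    have e1 : T ^ n = T ^ (n - 3 * j) * T ^ (3 * j) := by
      rw [← pow_add]; congr 1; omega
    rw [e1]; ring
  · rw [(hN j).2 (by omega)]
    simp

theorem evl_C {k : Type} [Field k] {L : Type} [CommRing L] [Algebra k L] (l : Fin 3) (g : L)
    (x q s : Fin 3 → L) (b : B2 k) : evl l g x q s (Polynomial.C b) =
      aeval (Sum.elim x ![g * q (l + 1), g * q (l + 2)]) b := by
  simp [evl]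

theorem evl_X {k : Type} [Field k] {L : Type} [CommRing L] [Algebra k L] (l : Fin 3) (g : L)
    (x q s : Fin 3 → L) : evl l g x q s (Polynomial.X : P2 k) = g * s l := by
  simp [evl]

theorem aeval_xb {k : Type} [Field k] {L : Type} [CommRing L] [Algebra k L] (x : Fin 3 → L)
    (r : Fin 2 → L) (P : MvPolynomial (Fin 3) k) :
    aeval (Sum.elim x r) (aeval xb P : B2 k) = aeval x P := by
  rw [MvPolynomial.comp_aeval_apply]
  congr 2
  funext i
  simp [xb]

theorem gp_ne {k : Type} [Field k] (G : MvPolynomial (Fin 3) k) (hG : G ≠ 0) : gp G ≠ 0 := by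
  unfold gp
  rw [Ne, Polynomial.C_eq_zero]
  intro h
  apply hG
  have h1 := aeval_xb (k := k) (L := MvPolynomial (Fin 3) k) X (fun _ => 0) G
  rw [h, map_zero, MvPolynomial.aeval_X_left_apply] at h1
  exact h1.symm

section

variable {k : Type} [Field k]

/-- the universal scaling -/
noncomputable def sv : Fin 3 ⊕ Fin 2 → Polynomial (P2 k) :=
  Sum.elim (fun i => (Polynomial.C (Polynomial.C (xb i : B2 k) : P2 k) : Polynomial (P2 k)))
    (fun j => Polynomial.X * (Polynomial.C (Polynomial.C (qb j : B2 k) : P2 k)))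

/-- the universal scaling -/
noncomputable def sg : P2 k →+* Polynomial (P2 k) :=
  Polynomial.eval₂RingHom (R := B2 k) (S := Polynomial (P2 k))
    ((aeval sv : B2 k →ₐ[k] Polynomial (P2 k)) : B2 k →+* Polynomial (P2 k))
    (Polynomial.X ^ 3 * Polynomial.C (Polynomial.X : P2 k))

theorem sg_C (b : B2 k) : sg (Polynomial.C b) = aeval sv b := by
  simp [sg]

theorem sg_X : sg (Polynomial.X : P2 k) =
    Polynomial.X ^ 3 * Polynomial.C (Polynomial.X : P2 k) := by
  simp [sg]

/-- the embedding of `B2` -/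
noncomputable def cc : B2 k →ₐ[k] Polynomial (P2 k) where
  toRingHom := (Polynomial.C : P2 k →+* Polynomial (P2 k)).comp (Polynomial.C : B2 k →+* P2 k)
  commutes' := fun _ => rfl

theorem cc_apply (b : B2 k) : cc b = Polynomial.C (Polynomial.C b) := rfl

theorem sg_xb (P : MvPolynomial (Fin 3) k) : sg (Polynomial.C (aeval xb P : B2 k)) =
    (Polynomial.C (Polynomial.C (aeval xb P : B2 k) : P2 k) : Polynomial (P2 k)) := by
  rw [sg_C, ← cc_apply]
  have e1 := MvPolynomial.comp_aeval_apply (B := Polynomial (P2 k)) (f := (xb : Fin 3 → B2 k))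
    (aeval sv) P
  have e2 := MvPolynomial.comp_aeval_apply (B := Polynomial (P2 k)) (f := (xb : Fin 3 → B2 k))
    cc P
  refine e1.trans (Eq.trans ?_ e2.symm)
  congr 2
  funext i
  simp [xb, sv, cc_apply]

theorem sg_q (j : Fin 2) : sg (Polynomial.C (qb j : B2 k)) =
    (Polynomial.X * Polynomial.C (Polynomial.C (qb j : B2 k) : P2 k) : Polynomial (P2 k)) := by
  rw [sg_C]
  simp [qb, sv]

theorem sg_chy (G : MvPolynomial (Fin 3) k) (l i : Fin 3) : sg (Polynomial.C (chy G l i)) =
    Polynomial.X * Polynomial.C (Polynomial.C (chy G l i)) := by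
  unfold chy gr
  split_ifs
  · simp only [map_neg, map_add, map_mul, sg_xb, sg_q]
    ring
  · simp only [map_mul, sg_xb, sg_q]
    ring
  · simp only [map_mul, sg_xb, sg_q]
    ring

theorem sg_chw (G : MvPolynomial (Fin 3) k) (d : ℕ) (l : Fin 3) : sg (chw G d l) =
    Polynomial.X ^ 3 * Polynomial.C (chw G d l) := by
  have h1 : sg (Polynomial.C (hs G xb (chy G l))) =
      Polynomial.X ^ 2 * Polynomial.C (Polynomial.C (hs G xb (chy G l))) := by
    unfold hs
    simp only [map_sum, map_mul, sg_xb, sg_chy, Finset.mul_sum]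
    refine Finset.sum_congr rfl fun i _ => Finset.sum_congr rfl fun j _ => ?_
    ring
  have h2 : ∀ i : Fin 3, sg (Polynomial.C (xb i)) =
      (Polynomial.C (Polynomial.C (xb i)) : Polynomial (P2 k)) := by
    intro i
    rw [sg_C]
    simp [xb, sv]
  have h3 : sg (Polynomial.C (d : B2 k)) =
      (Polynomial.C (Polynomial.C (d : B2 k)) : Polynomial (P2 k)) := by
    simp
  unfold chw
  simp only [map_sub, map_mul, h1, h2, h3, sg_xb, sg_q, sg_X]
  ring

theorem sg_Psi (G : MvPolynomial (Fin 3) k) (d : ℕ) (l : Fin 3) (e n : ℕ) (N : R2 k)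
    (hN : BHN e n N) : sg (Psi G d l N) = Polynomial.X ^ n * Polynomial.C (Psi G d l N) := by
  have hPX : Psi G d l Polynomial.X = chw G d l := by simp [Psi]
  have hPC : ∀ c : A2 k, Psi G d l (Polynomial.C c) =
      Polynomial.C (aeval (Sum.elim xb (chy G l)) c) := by
    intro c
    simp [Psi]
  have key := scale_R2 (P := Polynomial (P2 k)) (sg.comp (Psi G d l))
    ((Polynomial.C : P2 k →+* Polynomial (P2 k)).comp (Psi G d l)) Polynomial.X ?_ ?_ e n N hN
  · exact key
  · simp only [RingHom.comp_apply, hPX]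
    exact sg_chw G d l
  · intro c m hc
    simp only [RingHom.comp_apply, hPC]
    rw [← cc_apply, sg_C]
    have f1 := MvPolynomial.comp_aeval_apply (B := Polynomial (P2 k))
      (f := Sum.elim (xb : Fin 3 → B2 k) (chy G l)) (aeval sv) c
    have f2 := MvPolynomial.comp_aeval_apply (B := Polynomial (P2 k))
      (f := Sum.elim (xb : Fin 3 → B2 k) (chy G l)) cc c
    have e1 : (fun i => (aeval sv : B2 k →ₐ[k] Polynomial (P2 k)) (Sum.elim xb (chy G l) i)) =
        Sum.elim (fun i => cc (xb i)) (fun i => Polynomial.X * cc (chy G l i)) := by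
      funext i
      rcases i with i | i
      · simp [xb, cc_apply, sv]
      · simp only [Sum.elim_inr, cc_apply]
        rw [← sg_C, sg_chy]
    have e2 : (fun i => cc (Sum.elim xb (chy G l) i)) =
        Sum.elim (fun i => cc (xb i)) (fun i => cc (chy G l i)) := by
      funext i
      rcases i with i | i <;> rfl
    rw [e1] at f1
    rw [e2] at f2
    refine f1.trans (Eq.trans ?_ (congrArg (fun t => Polynomial.X ^ m * t) f2.symm))
    exact aeval_scale (L := Polynomial (P2 k)) c m hc (fun i => cc (xb i))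
      (fun i => cc (chy G l i)) Polynomial.X

theorem sg_N (G : MvPolynomial (Fin 3) k) (hG : G ≠ 0) (d : ℕ) (l : Fin 3) (e n M : ℕ) (N : R2 k)
    (hN : BHN e n N) (N2 : P2 k) (h : gp G ^ M * N2 = Psi G d l N) :
    sg N2 = Polynomial.X ^ n * Polynomial.C N2 := by
  have h1 := congrArg sg h
  rw [sg_Psi G d l e n N hN, ← h] at h1
  have h2 : sg (gp G) = Polynomial.C (gp G) := by
    unfold gp
    exact sg_xb G
  rw [map_mul, map_pow, h2, Polynomial.C_mul, Polynomial.C_pow] at h1
  have h3 : (Polynomial.C (gp G) : Polynomial (P2 k)) ^ M ≠ 0 :=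
    pow_ne_zero _ (by rw [Ne, Polynomial.C_eq_zero]; exact gp_ne G hG)
  apply mul_left_cancel₀ h3
  rw [h1]
  ring

/-- neighbouring charts -/
theorem next (hTHE : T_THE) [CharZero k] (G : MvPolynomial (Fin 3) k) (d : ℕ)
    (hh : G.IsHomogeneous d) (hG : G ≠ 0) (e n M : ℕ) (N : R2 k) (hN : BHN e n N)
    {L : Type} [CommRing L] [Algebra k L] (x q s : Fin 3 → L) (l : Fin 3) (g g' : L)
    (N1 N2 : P2 k) (hJ : JP G x q s) (hg : g * gr G x l = 1) (hg' : g' * gr G x (l + 1) = 1)
    (h1 : gp G ^ M * N1 = Psi G d l N) (h2 : gp G ^ M * N2 = Psi G d (l + 1) N) :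
    evl l g x q s N1 = evl (l + 1) g' x q s N2 := by
  obtain ⟨Θ, hΘg, hΘ, hΘN⟩ := hTHE k G d hh l
  obtain ⟨hJ1, hJ2⟩ := hJ
  have hn := hΘN e n N hN
  rw [← h1, ← h2, map_mul, map_pow, hΘg] at hn
  have h3 : (gp G : P2 k) ^ M ≠ 0 := pow_ne_zero _ (gp_ne G hG)
  have h4 : Θ N2 = Polynomial.C (gr G xb (l + 1)) ^ n * N1 := by
    apply mul_left_cancel₀ h3
    rw [hn]
    ring
  -- the geometric relations
  have hdp : gr G x l * q l + gr G x (l + 1) * q (l + 1) + gr G x (l + 2) * q (l + 2) = 0 := by
    unfold dp at hJ1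
    rw [Fin.sum_univ_three] at hJ1
    fin_cases l
    · exact hJ1
    · change gr G x 1 * q 1 + gr G x 2 * q 2 + gr G x 0 * q 0 = 0
      linear_combination hJ1
    · change gr G x 2 * q 2 + gr G x 0 * q 0 + gr G x 1 * q 1 = 0
      linear_combination hJ1
  have hcr : gr G x l * s (l + 1) - gr G x (l + 1) * s l = -(hs G x q * q (l + 2)) := by
    have h5 := hJ2 (l + 2)
    unfold cr at h5
    have i1 : l + 2 + 1 = l := by fin_cases l <;> rfl
    have i2 : l + 2 + 2 = l + 1 := by fin_cases l <;> rfl
    rwa [i1, i2] at h5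
  have hgx : ∀ i, evl l g x q s (Polynomial.C (gr G xb i : B2 k)) = gr G x i := by
    intro i
    rw [evl_C]
    exact aeval_xb _ _ _
  have hq0 : evl l g x q s (Polynomial.C (qb 0) : P2 k) = g * q (l + 1) := by
    rw [evl_C]; simp [qb]
  have hq1 : evl l g x q s (Polynomial.C (qb 1) : P2 k) = g * q (l + 2) := by
    rw [evl_C]; simp [qb]
  have hchy : ∀ i, evl l g x q s (Polynomial.C (chy G l i : B2 k)) = q i := by
    intro i
    unfold chy
    split_ifs with a1 a2
    · simp only [map_neg, map_add, map_mul, hgx, hq0, hq1]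
      rw [a1]
      linear_combination -g * hdp + q l * hg
    · simp only [map_mul, hgx, hq0]
      rw [a2]
      linear_combination q (l + 1) * hg
    · simp only [map_mul, hgx, hq1]
      have a3 : i = l + 2 := by
        revert a1 a2
        fin_cases l <;> fin_cases i <;> decide
      rw [a3]
      linear_combination q (l + 2) * hg
  have hhs : evl l g x q s (Polynomial.C (hs G xb (chy G l) : B2 k)) = hs G x q := by
    unfold hs
    simp only [map_sum, map_mul, hchy]
    refine Finset.sum_congr rfl fun i _ => Finset.sum_congr rfl fun j _ => ?_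
    rw [evl_C, aeval_xb]
  -- the specialisation of the universal scaling
  set lam := gr G x (l + 1) with hlam
  let τ : Polynomial (P2 k) →+* L := Polynomial.eval₂RingHom (evl (l + 1) g' x q s) lam
  have hτC : ∀ p, τ (Polynomial.C p) = evl (l + 1) g' x q s p := by
    intro p
    simp [τ]
  have hτX : τ Polynomial.X = lam := by simp [τ]
  have j1 : l + 1 + 1 = l + 2 := by fin_cases l <;> rfl
  have j2 : l + 1 + 2 = l := by fin_cases l <;> rfl
  have t1 : ∀ i : Fin 3, τ (sv (Sum.inl i)) = x i := by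
    intro i
    simp only [sv, Sum.elim_inl, hτC, evl_C]
    simp [xb]
  have t2 : τ (sv (Sum.inr 0)) = q (l + 2) := by
    simp only [sv, Sum.elim_inr, map_mul, hτC, hτX, evl_C]
    simp only [qb, MvPolynomial.aeval_X, Sum.elim_inr, Matrix.cons_val_zero, j1]
    linear_combination q (l + 2) * hg'
  have t3 : τ (sv (Sum.inr 1)) = q l := by
    simp only [sv, Sum.elim_inr, map_mul, hτC, hτX, evl_C]
    simp only [qb, MvPolynomial.aeval_X, Sum.elim_inr, Matrix.cons_val_one,
      Matrix.cons_val_zero, j2]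
    linear_combination q l * hg'
  have hcomp : ∀ p : P2 k, evl l g x q s (Θ p) = τ (sg p) := by
    intro p
    have h5 : (evl l g x q s).comp Θ = τ.comp sg := by
      refine Polynomial.ringHom_ext' ?_ ?_
      · refine MvPolynomial.ringHom_ext ?_ ?_
        · intro a
          simp only [RingHom.comp_apply, hΘ, Polynomial.coe_eval₂RingHom, Polynomial.eval₂_C,
            RingHom.coe_coe, MvPolynomial.aeval_C, sg_C]
          have e1 : (algebraMap k (B2 k)) a = MvPolynomial.C a := rfl
          have e2 : (algebraMap k (Polynomial (P2 k))) a =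
              Polynomial.C (Polynomial.C (MvPolynomial.C a)) := rfl
          rw [e1, e2, hτC, evl_C, evl_C, MvPolynomial.aeval_C, MvPolynomial.aeval_C]
        · intro i
          simp only [RingHom.comp_apply, hΘ, Polynomial.coe_eval₂RingHom, Polynomial.eval₂_C,
            RingHom.coe_coe, MvPolynomial.aeval_X, sg_C]
          rcases i with i | i
          · rw [t1]
            simp only [Sum.elim_inl]
            rw [evl_C]
            simp [xb]
          · fin_cases i
            · simp only [Fin.zero_eta, Sum.elim_inr, Matrix.cons_val_zero, map_mul, hgx, hq1, t2]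
              linear_combination q (l + 2) * hg
            · simp only [Fin.mk_one, Sum.elim_inr, Matrix.cons_val_one, Matrix.cons_val_zero,
                map_neg, map_add, map_mul, hgx, hq0, hq1, t3]
              linear_combination -g * hdp + q l * hg
      · simp only [RingHom.comp_apply, hΘ, Polynomial.coe_eval₂RingHom, Polynomial.eval₂_X, sg_X,
          map_sub, map_mul, map_pow, hgx, hhs, hq1, evl_X, hτX, hτC]
        linear_combination -lam ^ 2 * g * hcr + lam ^ 2 * s (l + 1) * hg -
          lam ^ 2 * s (l + 1) * hg'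
    exact RingHom.congr_fun h5 p
  have h6 := hcomp N2
  rw [sg_N G hG d (l + 1) e n M N hN N2 h2, h4, map_mul, map_mul, map_pow, map_pow, hτX, hτC,
    hgx] at h6
  have h7 : g' ^ n * lam ^ n = 1 := by rw [← mul_pow, hg', one_pow]
  calc evl l g x q s N1 = (g' ^ n * lam ^ n) * evl l g x q s N1 := by rw [h7, one_mul]
    _ = g' ^ n * (lam ^ n * evl (l + 1) g' x q s N2) := by rw [mul_assoc, h6]
    _ = evl (l + 1) g' x q s N2 := by rw [← mul_assoc, h7, one_mul]

end

theorem pf_CMP (hTHE : T_THE) : T_CMP := by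
  intro k _ _ _ G d hd hS hirr e n M N hN L _ _ x q s l l' g g' N1 N2 hJ hg hg' h1 h2
  have hG : G ≠ 0 := hirr.ne_zero
  have hll : l' = l ∨ l' = l + 1 ∨ l = l' + 1 := by
    fin_cases l <;> fin_cases l' <;> decide
  rcases hll with rfl | rfl | rfl
  · have h3 : (gp G : P2 k) ^ M ≠ 0 := pow_ne_zero _ (gp_ne G hG)
    have h4 : N1 = N2 := mul_left_cancel₀ h3 (h1.trans h2.symm)
    have h5 : g = g' := by
      calc g = g * (g' * gr G x l') := by rw [hg', mul_one]
        _ = g' * (g * gr G x l') := by ring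
        _ = g' := by rw [hg, mul_one]
    rw [h4, h5]
  · exact next hTHE G d hS.1 hG e n M N hN x q s l g g' N1 N2 hJ hg hg' h1 h2
  · exact (next hTHE G d hS.1 hG e n M N hN x q s l' g' g N2 N1 hJ hg' hg h2 h1).symm

end Pool.Agent.H26.SM
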